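import Pool.Agent.Q176.RE.C

set_option autoImplicit false

/-!
# MP_0393a7_an: Rokhlin entropy is not additive

For every group `G` with subgroups `H < K < G`, `H` of finite index, the action of `G` on `G / H`
(uniform measure) and its factor `G / K` satisfy
`h^Rok_G(X) < h^Rok_{G,X}(Y) + h^Rok_G(X | Σ)`. In particular this happens for `G = ℤ`.
-/

open Pool.Agent.Q176.RE

namespace Pool.Agent.Results.MP_0393a7_an.FiniteFactors

theorem chain (G : Type) [Group G] (H K : Subgroup G) (hfin : H.FiniteIndex) (hHK : H < K)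
    (hK : K < ⊤) : Fails G := by
  have : K.FiniteIndex := Subgroup.finiteIndex_of_le hHK.le
  letI : Fintype (G ⧸ H) := Subgroup.fintypeQuotientOfFiniteIndex
  letI : Fintype (G ⧸ K) := Subgroup.fintypeQuotientOfFiniteIndex
  letI : MeasurableSpace (G ⧸ H) := ⊤
  letI : MeasurableSpace (G ⧸ K) := ⊤
  have : DiscreteMeasurableSpace (G ⧸ H) := ⟨fun _ => trivial⟩
  have : DiscreteMeasurableSpace (G ⧸ K) := ⟨fun _ => trivial⟩
  refine fails (X := G ⧸ H) (Y := G ⧸ K) (p := Subgroup.quotientMapOfLE hHK.le) ?_ ?_ ?_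
  · intro g x
    induction x using QuotientGroup.induction_on with
    | H z => rfl
  · obtain ⟨g, -, hg⟩ := SetLike.exists_of_lt hK
    refine ⟨((1 : G) : G ⧸ H), (g : G ⧸ H), fun h => hg ?_⟩
    have h1 : ((1 : G) : G ⧸ K) = (g : G ⧸ K) := h
    rw [QuotientGroup.eq] at h1
    simpa using h1
  · obtain ⟨g, hgK, hgH⟩ := SetLike.exists_of_lt hHK
    refine ⟨((1 : G) : G ⧸ H), (g : G ⧸ H), fun h => hgH ?_, ?_⟩
    · rw [QuotientGroup.eq] at h
      simpa using h
    · show ((1 : G) : G ⧸ K) = (g : G ⧸ K)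
      rw [QuotientGroup.eq]
      simpa using hgK

theorem ints : Fails (Multiplicative ℤ) := by
  have h4 : (Subgroup.zpowers (Multiplicative.ofAdd (4 : ℤ))).index ≠ 0 := by
    have := Int.index_zmultiples 4
    have h : (AddSubgroup.zmultiples (4 : ℤ)).toSubgroup =
        Subgroup.zpowers (Multiplicative.ofAdd (4 : ℤ)) := by
      ext x
      simp [Subgroup.mem_zpowers_iff, AddSubgroup.mem_zmultiples_iff]
      constructor
      · rintro ⟨k, hk⟩
        refine ⟨k, Multiplicative.toAdd.injective ?_⟩
        rw [← hk]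
        simp
      · rintro ⟨k, hk⟩
        refine ⟨k, ?_⟩
        rw [← hk]
        simp
    rw [← h]
    rw [AddSubgroup.index_toSubgroup, this]
    norm_num
  refine chain (Multiplicative ℤ) (Subgroup.zpowers (Multiplicative.ofAdd (4 : ℤ)))
    (Subgroup.zpowers (Multiplicative.ofAdd (2 : ℤ))) ⟨h4⟩ ?_ ?_
  · refine lt_of_le_of_ne ?_ ?_
    · rw [Subgroup.zpowers_le, Subgroup.mem_zpowers_iff]
      exact ⟨2, rfl⟩
    · intro h
      have h2 : Multiplicative.ofAdd (2 : ℤ) ∈
          Subgroup.zpowers (Multiplicative.ofAdd (4 : ℤ)) := by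
        rw [h]; exact Subgroup.mem_zpowers _
      obtain ⟨k, hk⟩ := h2
      have h3 : k * 4 = 2 := by
        have := congrArg Multiplicative.toAdd hk
        simpa using this
      omega
  · refine lt_top_iff_ne_top.2 fun h => ?_
    have h2 : Multiplicative.ofAdd (1 : ℤ) ∈
        Subgroup.zpowers (Multiplicative.ofAdd (2 : ℤ)) := by
      rw [h]; trivial
    obtain ⟨k, hk⟩ := h2
    have h3 : k * 2 = 1 := by
      have := congrArg Multiplicative.toAdd hk
      simpa using this
    omega

/-- Additivity of Rokhlin entropy fails for every group with subgroups `H < K < G`, `H` of finite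
index, and in particular for the group of integers. -/
theorem result :
    (∀ (G : Type) [Group G] (H K : Subgroup G), H.FiniteIndex → H < K → K < ⊤ → Fails G) ∧
      Fails (Multiplicative ℤ) :=
  ⟨fun G _ H K h1 h2 h3 => chain G H K h1 h2 h3, ints⟩

end Pool.Agent.Results.MP_0393a7_an.FiniteFactors
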